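import Pool.Agent.N329.SD.StmL

/-!
# Project SD: the forcing theorem for systems
-/

set_option autoImplicit false

namespace Pool.Agent.N607.SD

open Pool.Agent.W868 Pool.Agent.W868.GM Pool.Agent.R597 Pool.Agent.Y588 Pool.Agent.N329.SD
open ZFSet (pair)

/-! ### Sets of natural numbers -/

theorem nat_mem_zs {S : Set ℕ} {n : ℕ} : nat n ∈ zs S ↔ n ∈ S := by
  rw [zs, ZFSet.mem_sep]
  constructor
  · rintro ⟨-, k, hk, h⟩
    rw [nat_injective h]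
    exact hk
  · exact fun h => ⟨nat_mem_omega n, n, h, rfl⟩

theorem mem_zs {S : Set ℕ} {x : ZFSet.{0}} : x ∈ zs S ↔ ∃ n ∈ S, x = nat n := by
  rw [zs, ZFSet.mem_sep]
  constructor
  · exact fun h => h.2
  · rintro ⟨n, hn, rfl⟩
    exact ⟨nat_mem_omega n, n, hn, rfl⟩

theorem pair_mem_gp {f : ℕ →. ℕ} {a b : ℕ} : pair (nat a) (nat b) ∈ gp f ↔ b ∈ f a := by
  rw [N329.SD.gp, ZFSet.mem_sep]
  constructor
  · rintro ⟨-, a', b', h, h1⟩
    obtain ⟨h2, h3⟩ := ZFSet.pair_inj.1 h1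
    rw [nat_injective h2, nat_injective h3]
    exact h
  · exact fun h => ⟨ZFSet.pair_mem_prod.2 ⟨nat_mem_omega a, nat_mem_omega b⟩, a, b, h, rfl⟩

/-- A set of natural numbers that is definable in the constructible universe. -/
theorem con_sep {Q : ZFSet.{0} → Prop} (hM : IsZF Lcls)
    (h : Dfn Lcls Lcls fun w : Fin 1 → ZFSet.{0} => Q (w 0)) : Con {n | Q (nat n)} := by
  have h1 : zs {n | Q (nat n)} = ZFSet.sep Q ZFSet.omega := by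
    ext x
    rw [mem_zs, ZFSet.mem_sep]
    constructor
    · rintro ⟨n, hn, rfl⟩
      exact ⟨nat_mem_omega n, hn⟩
    · rintro ⟨hx, hQ⟩
      obtain ⟨n, rfl⟩ := mem_omega_iff.1 hx
      exact ⟨n, hQ, rfl⟩
  rw [N329.SD.Con, h1]
  exact hM.sep_mem h hM.infinity

/-- The order of the conditions. -/
noncomputable def Os (O : Set ℕ) : ZFSet.{0} :=
  ZFSet.sep (fun p => ∃ q r : ℕ, Nat.pair q r ∈ O ∧ p = pair (nat q) (nat r))
    (ZFSet.prod ZFSet.omega ZFSet.omega)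

theorem mem_Os {O : Set ℕ} {q r : ℕ} : pair (nat q) (nat r) ∈ Os O ↔ Nat.pair q r ∈ O := by
  rw [Os, ZFSet.mem_sep]
  constructor
  · rintro ⟨-, a', b', h, h1⟩
    obtain ⟨h2, h3⟩ := ZFSet.pair_inj.1 h1
    rw [nat_injective h2, nat_injective h3]
    exact h
  · exact fun h => ⟨ZFSet.pair_mem_prod.2 ⟨nat_mem_omega q, nat_mem_omega r⟩, q, r, h, rfl⟩

theorem Os_mem (hM : IsZF Lcls) (hPR : S_PR) {O : Set ℕ} (hO : Con O) : Os O ∈ Lcls := by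
  have hB := hM.base
  have hl := hPR Lcls hM _ Nat.Partrec.left
  have hr := hPR Lcls hM _ Nat.Partrec.right
  set L := gp ((fun n : ℕ => n.unpair.1 : ℕ → ℕ) : ℕ →. ℕ) with hL
  set R := gp ((fun n : ℕ => n.unpair.2 : ℕ → ℕ) : ℕ →. ℕ) with hR
  have hLm : ∀ a b : ℕ, pair (nat a) (nat b) ∈ L ↔ b = a.unpair.1 := by
    intro a b
    rw [hL, pair_mem_gp, PFun.coe_val, Part.mem_some_iff]
  have hRm : ∀ a b : ℕ, pair (nat a) (nat b) ∈ R ↔ b = a.unpair.2 := by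
    intro a b
    rw [hR, pair_mem_gp, PFun.coe_val, Part.mem_some_iff]
  have h1 : Os O = ZFSet.sep (fun p => ∃ c ∈ zs O, pair c (fs p) ∈ L ∧ pair c (sn p) ∈ R)
      (ZFSet.prod ZFSet.omega ZFSet.omega) := by
    ext x
    rw [Os, ZFSet.mem_sep, ZFSet.mem_sep]
    refine and_congr_right fun hx => ?_
    constructor
    · rintro ⟨q, r, h, rfl⟩
      refine ⟨nat (Nat.pair q r), nat_mem_zs.2 h, ?_, ?_⟩
      · rw [fs_pair, hLm, Nat.unpair_pair]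
      · rw [sn_pair, hRm, Nat.unpair_pair]
    · rintro ⟨c, hc, h2, h3⟩
      obtain ⟨n, hn, rfl⟩ := mem_zs.1 hc
      obtain ⟨a, ha, b, hb, rfl⟩ := ZFSet.mem_prod.1 hx
      obtain ⟨a, rfl⟩ := mem_omega_iff.1 ha
      obtain ⟨b, rfl⟩ := mem_omega_iff.1 hb
      rw [fs_pair, hLm] at h2
      rw [sn_pair, hRm] at h3
      refine ⟨a, b, ?_, rfl⟩
      rw [h2, h3, Nat.pair_unpair]
      exact hn
  rw [h1]
  refine hM.sep_mem ?_ (hM.prod_mem hM.infinity hM.infinity)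
  apply hB.bex (DfnF.const hO)
  refine Dfn.and ?_ ?_
  · exact Dfn.mem (hB.pair' (DfnF.proj 0) (hM.fs' (DfnF.proj 1))) (DfnF.const hl)
  · exact Dfn.mem (hB.pair' (DfnF.proj 0) (hM.sn' (DfnF.proj 1))) (DfnF.const hr)

/-! ### The derivatives -/

/-- The derivatives of the set `K`. -/
noncomputable def Pd (K R W : ZFSet.{0}) : ZFSet.{0} → ZFSet.{0} :=
  wfF (fun z => z) ZFSet.mem_wf fun _ g =>
    ZFSet.sep (fun p => ∀ y ∈ g, ∀ q ∈ ZFSet.omega, pair (fs p) q ∈ R →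
      ∃ r ∈ ZFSet.omega, pair q r ∈ R ∧ ∃ a ∈ W, pair r (pair (sn p) a) ∈ sn y) K

theorem Pd_eq (K R W z : ZFSet.{0}) :
    Pd K R W z = ZFSet.sep (fun p => ∀ y ∈ gr (Pd K R W) z, ∀ q ∈ ZFSet.omega,
      pair (fs p) q ∈ R → ∃ r ∈ ZFSet.omega, pair q r ∈ R ∧
        ∃ a ∈ W, pair r (pair (sn p) a) ∈ sn y) K :=
  wfF_eq _ _ _ _

theorem mem_Pd {K R W z p : ZFSet.{0}} :
    p ∈ Pd K R W z ↔ p ∈ K ∧ ∀ y ∈ z, ∀ q ∈ ZFSet.omega,
      pair (fs p) q ∈ R → ∃ r ∈ ZFSet.omega, pair q r ∈ R ∧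
        ∃ a ∈ W, pair r (pair (sn p) a) ∈ Pd K R W y := by
  rw [Pd_eq, ZFSet.mem_sep]
  refine and_congr_right fun _ => ?_
  constructor
  · intro h y hy q hq hpq
    obtain ⟨r, hr, h2, a, ha, h1⟩ := h _ (mem_gr.2 ⟨y, hy, rfl⟩) q hq hpq
    rw [sn_pair] at h1
    exact ⟨r, hr, h2, a, ha, h1⟩
  · intro h y hy q hq hpq
    obtain ⟨u, hu, rfl⟩ := mem_gr.1 hy
    rw [sn_pair]
    exact h u hu q hq hpq

theorem Pd_anti {K R W z z' : ZFSet.{0}} (h : z ⊆ z') : Pd K R W z' ⊆ Pd K R W z := by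
  intro t ht
  obtain ⟨h1, h2⟩ := mem_Pd.1 ht
  exact mem_Pd.2 ⟨h1, fun y hy => h2 y (h hy)⟩

theorem dfn_Pd {M : Set ZFSet.{0}} (hM : IsZF M) {K R W : ZFSet.{0}} (hK : K ∈ M) (hR : R ∈ M)
    (hW : W ∈ M) : DfnF M M fun w : Fin 1 → ZFSet.{0} => Pd K R W (w 0) := by
  refine hM.memrec (G := fun _ g =>
    ZFSet.sep (fun p => ∀ y ∈ g, ∀ q ∈ ZFSet.omega, pair (fs p) q ∈ R →
      ∃ r ∈ ZFSet.omega, pair q r ∈ R ∧ ∃ a ∈ W, pair r (pair (sn p) a) ∈ sn y) K) ?_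
    (Pd_eq K R W)
  have hB := hM.base
  refine hM.sep' (Q := fun p w => ∀ y ∈ w 1, ∀ q ∈ ZFSet.omega, pair (fs p) q ∈ R →
      ∃ r ∈ ZFSet.omega, pair q r ∈ R ∧ ∃ a ∈ W, pair r (pair (sn p) a) ∈ sn y)
    (DfnF.const hK) ?_
  apply hB.ball (DfnF.proj 2)
  apply hB.ball (DfnF.const hM.infinity)
  refine Dfn.imp (Dfn.mem (hB.pair' (hM.fs' (DfnF.proj 2)) (DfnF.proj 0)) (DfnF.const hR)) ?_
  apply hB.bex (DfnF.const hM.infinity)
  refine Dfn.and (Dfn.mem (hB.pair' (DfnF.proj 1) (DfnF.proj 0)) (DfnF.const hR)) ?_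
  apply hB.bex (DfnF.const hW)
  exact Dfn.mem (hB.pair' (DfnF.proj 1) (hB.pair' (hM.sn' (DfnF.proj 4)) (DfnF.proj 0)))
    (hM.sn' (DfnF.proj 3))

theorem mem_Pd_nat {O : Set ℕ} {K W z t : ZFSet.{0}} {q : ℕ} :
    pair (nat q) t ∈ Pd K (Os O) W z ↔ pair (nat q) t ∈ K ∧ ∀ y ∈ z, ∀ q', Nat.pair q q' ∈ O →
      ∃ r, Nat.pair q' r ∈ O ∧ ∃ a ∈ W, pair (nat r) (pair t a) ∈ Pd K (Os O) W y := by
  rw [mem_Pd, fs_pair, sn_pair]
  refine and_congr_right fun _ => ?_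
  constructor
  · intro h y hy q' hq'
    obtain ⟨r, hr, h1, a, ha, h2⟩ := h y hy (nat q') (nat_mem_omega q') (mem_Os.2 hq')
    obtain ⟨r, rfl⟩ := mem_omega_iff.1 hr
    exact ⟨r, mem_Os.1 h1, a, ha, h2⟩
  · intro h y hy q' hq' h1
    obtain ⟨q', rfl⟩ := mem_omega_iff.1 hq'
    obtain ⟨r, h2, a, ha, h3⟩ := h y hy q' (mem_Os.1 h1)
    exact ⟨nat r, nat_mem_omega r, mem_Os.2 h2, a, ha, h3⟩

section prune

variable {O : Set ℕ} {K W : ZFSet.{0}}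

/-- The derivatives are closed under stronger conditions. -/
theorem Pd_up (htr : ∀ p q r, Nat.pair p q ∈ O → Nat.pair q r ∈ O → Nat.pair p r ∈ O)
    (hup : ∀ (q q' : ℕ) (t : ZFSet.{0}), pair (nat q) t ∈ K → Nat.pair q q' ∈ O →
      pair (nat q') t ∈ K) {q q' : ℕ} {t z : ZFSet.{0}} (h : pair (nat q) t ∈ Pd K (Os O) W z)
    (hq : Nat.pair q q' ∈ O) : pair (nat q') t ∈ Pd K (Os O) W z := by
  rw [mem_Pd_nat] at h ⊢
  exact ⟨hup _ _ _ h.1 hq, fun y hy r hr => h.2 y hy r (htr _ _ _ hq hr)⟩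

/-- The union of the ordinals at which the elements of `K` disappear. -/
noncomputable def dl0 (M : Set ZFSet.{0}) (K R W : ZFSet.{0}) : ZFSet.{0} :=
  ZFSet.sUnion (im (fun p => lo M fun ζ => p ∉ Pd K R W ζ) K)

theorem dfn_lo {M : Set ZFSet.{0}} (hM : IsZF M) {K R W : ZFSet.{0}} (hK : K ∈ M) (hR : R ∈ M)
    (hW : W ∈ M) :
    DfnF M M fun w : Fin 1 → ZFSet.{0} => lo M fun ζ => w 0 ∉ Pd K R W ζ := by
  refine hM.lo' (Q := fun ζ w => w 0 ∉ Pd K R W ζ) ?_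
  exact (Dfn.mem (DfnF.proj 1) (DfnF.comp1 (f := Pd K R W) (dfn_Pd hM hK hR hW)
    (DfnF.proj 0))).not

theorem dl0_mem {M : Set ZFSet.{0}} (hM : IsZF M) {K R W : ZFSet.{0}} (hK : K ∈ M) (hR : R ∈ M)
    (hW : W ∈ M) : dl0 M K R W ∈ M :=
  hM.union _ (hM.im_mem (h := fun p => lo M fun ζ => p ∉ Pd K R W ζ) hK (dfn_lo hM hK hR hW))

theorem dl0_ord {M : Set ZFSet.{0}} {K R W : ZFSet.{0}} : (dl0 M K R W).IsOrdinal := by
  refine isOrdinal_sUnion ?_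
  intro x hx
  obtain ⟨t, -, rfl⟩ := mem_im.1 hx
  exact lo_isOrdinal

theorem dl0_key {M : Set ZFSet.{0}} {K R W p : ZFSet.{0}}
    (hp : p ∈ Pd K R W (dl0 M K R W)) {ζ : ZFSet.{0}} (hζ : ζ ∈ M) (hζo : ζ.IsOrdinal) :
    p ∈ Pd K R W ζ := by
  by_contra hc
  obtain ⟨-, -, h2⟩ := lo_spec (M := M) (P := fun ζ => p ∉ Pd K R W ζ) ⟨ζ, hζ, hζo, hc⟩
  apply h2
  refine Pd_anti ?_ hp
  intro z hz
  exact ZFSet.mem_sUnion.2 ⟨_, mem_im.2 ⟨p, (mem_Pd.1 hp).1, rfl⟩, hz⟩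

/-- The pruned set has extensions. -/
theorem prune_ext {M : Set ZFSet.{0}} (hM : IsZF M) (hK : K ∈ M) (hR : Os O ∈ M) (hW : W ∈ M)
    {q : ℕ} {t : ZFSet.{0}} (h : pair (nat q) t ∈ Pd K (Os O) W (dl0 M K (Os O) W)) {q' : ℕ}
    (hq : Nat.pair q q' ∈ O) : ∃ r, Nat.pair q' r ∈ O ∧ ∃ a ∈ W,
      pair (nat r) (pair t a) ∈ Pd K (Os O) W (dl0 M K (Os O) W) := by
  have h1 := dl0_key h (hM.sc_mem (dl0_mem hM hK hR hW)) (isOrdinal_sc dl0_ord)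
  exact (mem_Pd_nat.1 h1).2 _ (ZFSet.mem_insert _ _) q' hq

/-- An element that is not in the pruned set. -/
theorem not_prune {M : Set ZFSet.{0}} (hM : IsZF M) (hK : K ∈ M) (hR : Os O ∈ M) (hW : W ∈ M)
    (htr : ∀ p q r, Nat.pair p q ∈ O → Nat.pair q r ∈ O → Nat.pair p r ∈ O)
    (hup : ∀ (q q' : ℕ) (t : ZFSet.{0}), pair (nat q) t ∈ K → Nat.pair q q' ∈ O →
      pair (nat q') t ∈ K) {q : ℕ} {t : ZFSet.{0}} (hk : pair (nat q) t ∈ K)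
    (h : pair (nat q) t ∉ Pd K (Os O) W (dl0 M K (Os O) W)) :
    ∃ q', Nat.pair q q' ∈ O ∧ ∃ y ∈ M, y.IsOrdinal ∧ pair (nat q') t ∈ Pd K (Os O) W y ∧
      ∀ r, Nat.pair q' r ∈ O → ∀ a ∈ W, pair (nat r) (pair t a) ∉ Pd K (Os O) W y := by
  obtain ⟨h1, h2, h3⟩ := lo_spec (M := M) (P := fun ζ => pair (nat q) t ∉ Pd K (Os O) W ζ)
    ⟨_, dl0_mem hM hK hR hW, dl0_ord, h⟩
  set ζ := lo M fun ζ => pair (nat q) t ∉ Pd K (Os O) W ζ with hζ
  rw [mem_Pd_nat, not_and] at h3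
  have h4 := h3 hk
  push Not at h4
  obtain ⟨y, hy, q', hq', h5⟩ := h4
  have hyM : y ∈ M := hM.trans _ h1 _ hy
  have hyo : y.IsOrdinal := h2.mem hy
  have h6 : pair (nat q) t ∈ Pd K (Os O) W y := by
    by_contra hc
    exact lo_min (M := M) (P := fun ζ => pair (nat q) t ∉ Pd K (Os O) W ζ) hyM hyo hc hy
  exact ⟨q', hq', y, hyM, hyo, Pd_up htr hup h6 hq', h5⟩

end prune

/-! ### Generic sequences -/

theorem G_le {O : Set ℕ} {G : ℕ → ℕ} (hG : ∀ k, Nat.pair (G k) (G (k + 1)) ∈ O)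
    (hrf : ∀ p, Nat.pair p p ∈ O)
    (htr : ∀ p q r, Nat.pair p q ∈ O → Nat.pair q r ∈ O → Nat.pair p r ∈ O) {k l : ℕ}
    (h : k ≤ l) : Nat.pair (G k) (G l) ∈ O := by
  induction l, h using Nat.le_induction with
  | base => exact hrf _
  | succ l _ ih => exact htr _ _ _ ih (hG l)

/-- The statement about the pruned set. -/
theorem claim2 (hM : IsZF Lcls) {O : Set ℕ} {K W : ZFSet.{0}} (hK : K ∈ Lcls)
    (hR : Os O ∈ Lcls) (hW : W ∈ Lcls) (hrf : ∀ p, Nat.pair p p ∈ O)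
    (htr : ∀ p q r, Nat.pair p q ∈ O → Nat.pair q r ∈ O → Nat.pair p r ∈ O)
    (hup : ∀ (q q' : ℕ) (t : ZFSet.{0}), pair (nat q) t ∈ K → Nat.pair q q' ∈ O →
      pair (nat q') t ∈ K) {G : ℕ → ℕ} (hG : Gn Con O G) {f : ℕ → ZFSet.{0}} (hf : ∀ k, f k ∈ W)
    (ht : ∀ k, seq f k ∈ Lcls) (hKf : ∀ k, ∃ l, pair (nat (G l)) (seq f k) ∈ K) :
    ∃ k l, pair (nat (G l)) (seq f k) ∈ Pd K (Os O) W (dl0 Lcls K (Os O) W) := by
  by_contra hcon
  push Not at hcon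
  have hB := hM.base
  have hP := dfn_Pd hM hK hR hW
  have hdl := dl0_mem hM hK hR hW
  have hle := fun {k l : ℕ} (h : k ≤ l) => G_le hG.1 hrf htr h
  have key : ∀ k, ∃ l, ∃ y ∈ Lcls, y.IsOrdinal ∧ pair (nat (G l)) (seq f k) ∈ Pd K (Os O) W y ∧
      ∀ r, Nat.pair (G l) r ∈ O → ∀ a ∈ W,
        pair (nat r) (pair (seq f k) a) ∉ Pd K (Os O) W y := by
    intro k
    set t := seq f k with htd
    set Q : ZFSet.{0} → Prop := fun x =>
      (∀ r ∈ ZFSet.omega, pair x r ∈ Os O → pair r t ∉ K) ∨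
      pair x t ∈ Pd K (Os O) W (dl0 Lcls K (Os O) W) ∨
      ∃ y ∈ Lcls, y.IsOrdinal ∧ pair x t ∈ Pd K (Os O) W y ∧
        ∀ r ∈ ZFSet.omega, pair x r ∈ Os O → ∀ a ∈ W, pair r (pair t a) ∉ Pd K (Os O) W y
      with hQ
    have hQd : Dfn Lcls Lcls fun w : Fin 1 → ZFSet.{0} => Q (w 0) := by
      refine Dfn.or ?_ (Dfn.or ?_ ?_)
      · apply hB.ball (DfnF.const hM.infinity)
        refine Dfn.imp (Dfn.mem (hB.pair' (DfnF.proj 1) (DfnF.proj 0)) (DfnF.const hR)) ?_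
        exact (Dfn.mem (hB.pair' (DfnF.proj 0) (DfnF.const (ht k))) (DfnF.const hK)).not
      · exact Dfn.mem (hB.pair' (DfnF.proj 0) (DfnF.const (ht k)))
          (DfnF.const (hP.1 (fun _ => _) fun _ => hdl))
      · apply Dfn.ex
        refine Dfn.and (hB.isOrdinal' (DfnF.proj 0)) (Dfn.and ?_ ?_)
        · exact Dfn.mem (hB.pair' (DfnF.proj 1) (DfnF.const (ht k)))
            (DfnF.comp1 (f := Pd K (Os O) W) hP (DfnF.proj 0))
        · apply hB.ball (DfnF.const hM.infinity)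
          refine Dfn.imp (Dfn.mem (hB.pair' (DfnF.proj 2) (DfnF.proj 0)) (DfnF.const hR)) ?_
          apply hB.ball (DfnF.const hW)
          exact (Dfn.mem (hB.pair' (DfnF.proj 1) (hB.pair' (DfnF.const (ht k)) (DfnF.proj 0)))
            (DfnF.comp1 (f := Pd K (Os O) W) hP (DfnF.proj 2))).not
    obtain ⟨l, hl⟩ := hG.2 {n | Q (nat n)} (con_sep hM hQd) (by
      intro p
      by_cases h1 : ∃ r, Nat.pair p r ∈ O ∧ pair (nat r) t ∈ K
      · obtain ⟨r, hr, hrt⟩ := h1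
        by_cases h2 : pair (nat r) t ∈ Pd K (Os O) W (dl0 Lcls K (Os O) W)
        · exact ⟨r, Or.inr (Or.inl h2), hr⟩
        · obtain ⟨q', hq', y, hy, hyo, h3, h4⟩ := not_prune hM hK hR hW htr hup hrt h2
          refine ⟨q', Or.inr (Or.inr ⟨y, hy, hyo, h3, ?_⟩), htr _ _ _ hr hq'⟩
          intro s hs hqs a ha
          obtain ⟨s, rfl⟩ := mem_omega_iff.1 hs
          exact h4 s (mem_Os.1 hqs) a ha
      · push Not at h1
        refine ⟨p, Or.inl ?_, hrf p⟩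
        intro r hr hpr
        obtain ⟨r, rfl⟩ := mem_omega_iff.1 hr
        exact h1 r (mem_Os.1 hpr))
    rcases hl with h1 | h1 | ⟨y, hy, hyo, h2, h3⟩
    · exfalso
      obtain ⟨l', hl'⟩ := hKf k
      refine h1 (nat (G (max l l'))) (nat_mem_omega _) (mem_Os.2 (hle (le_max_left _ _))) ?_
      exact hup _ _ _ hl' (hle (le_max_right _ _))
    · exact absurd h1 (hcon k l)
    · refine ⟨l, y, hy, hyo, h2, fun r hr a ha => ?_⟩
      exact h3 (nat r) (nat_mem_omega r) (mem_Os.2 hr) a ha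
  choose l y hy hyo h1 h2 using key
  have hdec : ∀ k, y (k + 1) ∈ y k := by
    intro k
    rw [← ZFSet.IsOrdinal.not_subset_iff_mem (hyo k) (hyo (k + 1))]
    intro hsub
    have h3 := Pd_up (W := W) htr hup (h1 (k + 1)) (hle (le_max_right (l k) (l (k + 1))))
    have h4 := h2 k _ (hle (le_max_left (l k) (l (k + 1)))) (f k) (hf k)
    exact h4 (Pd_anti hsub h3)
  obtain ⟨z, ⟨k, rfl⟩, hz⟩ := ZFSet.mem_wf.has_min (Set.range y) ⟨_, 0, rfl⟩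
  exact hz _ ⟨k + 1, rfl⟩ (hdec k)

/-- The other direction. -/
theorem claim1 (hM : IsZF Lcls) {O : Set ℕ} {K W : ZFSet.{0}} (hK : K ∈ Lcls)
    (hR : Os O ∈ Lcls) (hW : W ∈ Lcls) (hrf : ∀ p, Nat.pair p p ∈ O)
    (htr : ∀ p q r, Nat.pair p q ∈ O → Nat.pair q r ∈ O → Nat.pair p r ∈ O)
    {G : ℕ → ℕ} (hG : Gn Con O G) {l : ℕ} {t : ZFSet.{0}} (htM : t ∈ Lcls)
    (h : pair (nat (G l)) t ∈ Pd K (Os O) W (dl0 Lcls K (Os O) W)) :
    ∃ l' : ℕ, ∃ a ∈ W,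
      pair (nat (G l')) (pair t a) ∈ Pd K (Os O) W (dl0 Lcls K (Os O) W) := by
  have hB := hM.base
  have hP := dfn_Pd hM hK hR hW
  have hdl := dl0_mem hM hK hR hW
  set Pi := Pd K (Os O) W (dl0 Lcls K (Os O) W) with hPi
  have hPiM : Pi ∈ Lcls := hP.1 (fun _ => _) fun _ => hdl
  have hgM : nat (G l) ∈ Lcls := hM.nat_mem _
  set Q : ZFSet.{0} → Prop := fun x => (∃ a ∈ W, pair x (pair t a) ∈ Pi) ∨
    ∀ s ∈ ZFSet.omega, pair x s ∈ Os O → pair (nat (G l)) s ∉ Os O with hQ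
  have hQd : Dfn Lcls Lcls fun w : Fin 1 → ZFSet.{0} => Q (w 0) := by
    refine Dfn.or ?_ ?_
    · apply hB.bex (DfnF.const hW)
      exact Dfn.mem (hB.pair' (DfnF.proj 1) (hB.pair' (DfnF.const htM) (DfnF.proj 0)))
        (DfnF.const hPiM)
    · apply hB.ball (DfnF.const hM.infinity)
      refine Dfn.imp (Dfn.mem (hB.pair' (DfnF.proj 1) (DfnF.proj 0)) (DfnF.const hR)) ?_
      exact (Dfn.mem (hB.pair' (DfnF.const hgM) (DfnF.proj 0)) (DfnF.const hR)).not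
  obtain ⟨l', hl'⟩ := hG.2 {n | Q (nat n)} (con_sep hM hQd) (by
    intro p
    by_cases h1 : ∃ s, Nat.pair p s ∈ O ∧ Nat.pair (G l) s ∈ O
    · obtain ⟨s, hps, hgs⟩ := h1
      obtain ⟨r, hsr, a, ha, h2⟩ := prune_ext hM hK hR hW h hgs
      exact ⟨r, Or.inl ⟨a, ha, h2⟩, htr _ _ _ hps hsr⟩
    · push Not at h1
      refine ⟨p, Or.inr ?_, hrf p⟩
      intro s hs hps hgs
      obtain ⟨s, rfl⟩ := mem_omega_iff.1 hs
      exact h1 s (mem_Os.1 hps) (mem_Os.1 hgs))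
  rcases hl' with ⟨a, ha, h1⟩ | h1
  · exact ⟨l', a, ha, h1⟩
  · exfalso
    exact h1 (nat (G (max l l'))) (nat_mem_omega _)
      (mem_Os.2 (G_le hG.1 hrf htr (le_max_right _ _)))
      (mem_Os.2 (G_le hG.1 hrf htr (le_max_left _ _)))

/-! ### The finite partial runs -/

theorem mem_KD {E Q D : Set ℕ} {κ : Ordinal.{0}} {q : ℕ} {f : ℕ → ZFSet.{0}} {n : ℕ} :
    pair (nat q) (seq f n) ∈ KD E Q D κ ↔ seq f n ∈ Sq (Wl κ) ∧
      ∃ (m : ℕ → ℕ) (α : ℕ → Ordinal.{0}), (∀ k < n, f k = lab m α k) ∧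
      (∀ i < n, ∀ j < n, c4 i (m i) j (m j) ∈ E ∧ (c4 i (m i) j (m j) ∈ Q → α j < α i)) ∧
      ∀ k < n, Nat.pair q (Nat.pair k (m k)) ∈ D := by
  rw [KD, ZFSet.mem_sep, ZFSet.pair_mem_prod]
  constructor
  · rintro ⟨⟨-, h1⟩, q', n', m, α, h2, h3, h4⟩
    obtain ⟨h5, h6⟩ := ZFSet.pair_inj.1 h2
    obtain ⟨h7, h8⟩ := seq_inj h6
    have h9 := nat_injective h5
    subst h9
    subst h7
    exact ⟨h1, m, α, h8, h3, h4⟩
  · rintro ⟨h1, m, α, h2, h3, h4⟩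
    refine ⟨⟨nat_mem_omega q, h1⟩, q, n, m, α, ?_, h3, h4⟩
    rw [seq_congr h2]

/-- An infinite run from finite runs. -/
theorem run_of {E Q D : Set ℕ} {κ : Ordinal.{0}} {G : ℕ → ℕ} {f : ℕ → ZFSet.{0}} {n₀ : ℕ}
    (h : ∀ n ≥ n₀, ∃ l, pair (nat (G l)) (seq f n) ∈ KD E Q D κ) :
    ∃ m α, Run E Q m α ∧ ∀ k, ∃ l', Nat.pair (G l') (Nat.pair k (m k)) ∈ D := by
  have h1 : ∀ n, ∃ (l : ℕ) (m : ℕ → ℕ) (α : ℕ → Ordinal.{0}), (∀ k < n, f k = lab m α k) ∧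
      (∀ i < n, ∀ j < n, c4 i (m i) j (m j) ∈ E ∧ (c4 i (m i) j (m j) ∈ Q → α j < α i)) ∧
      ∀ k < n, Nat.pair (G l) (Nat.pair k (m k)) ∈ D := by
    intro n
    obtain ⟨l, hl⟩ := h (n₀ + n) (by omega)
    obtain ⟨-, m, α, h2, h3, h4⟩ := mem_KD.1 hl
    exact ⟨l, m, α, fun k hk => h2 k (by omega), fun i hi j hj => h3 i (by omega) j (by omega),
      fun k hk => h4 k (by omega)⟩
  choose l m α h2 h3 h4 using h1
  have h5 : ∀ n k, k < n → m n k = m (k + 1) k ∧ α n k = α (k + 1) k := by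
    intro n k hk
    have h6 := (h2 n k hk).symm.trans (h2 (k + 1) k (by omega))
    obtain ⟨h7, h8⟩ := ZFSet.pair_inj.1 h6
    exact ⟨nat_injective h7, Ordinal.toZFSet_injective h8⟩
  refine ⟨fun k => m (k + 1) k, fun k => α (k + 1) k, ?_, fun k => ⟨l (k + 1), ?_⟩⟩
  · intro i j
    have h6 := h3 (i + j + 1) i (by omega) j (by omega)
    rw [(h5 (i + j + 1) i (by omega)).1, (h5 (i + j + 1) j (by omega)).1,
      (h5 (i + j + 1) i (by omega)).2, (h5 (i + j + 1) j (by omega)).2] at h6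
    exact h6
  · exact h4 (k + 1) k (by omega)

/-- SD/B: the forcing theorem for systems. -/
theorem sb : S_B := by
  intro hPR _ hKD O D E Q hO hD hE hQ hrf htr hmo G hG ⟨m, α, hrun, hmD⟩
  obtain ⟨hZ, hord⟩ := isZFC_L
  have hM := hZ.toIsZF
  obtain ⟨κ, hκ⟩ : ∃ κ : Ordinal.{0}, ∀ k, α k < κ := by
    refine ⟨Order.succ (⨆ k, α k), fun k => Order.lt_succ_of_le (Ordinal.le_iSup α k)⟩
  set K := KD E Q D κ with hKdef
  have hK : K ∈ Lcls := hKD E Q D hE hQ hD κ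
  have hW : Wl κ ∈ Lcls := hM.prod_mem hM.infinity (hord _ (ZFSet.isOrdinal_toZFSet κ))
  have hR := Os_mem hM hPR hO
  have hSq : Sq (Wl κ) ∈ Lcls := Sq_mem hM hW
  have hsub : ∀ (q : ℕ) (t : ZFSet.{0}), pair (nat q) t ∈ K → t ∈ Sq (Wl κ) := by
    intro q t h
    rw [hKdef, KD, ZFSet.mem_sep, ZFSet.pair_mem_prod] at h
    exact h.1.2
  have hup : ∀ (q q' : ℕ) (t : ZFSet.{0}), pair (nat q) t ∈ K → Nat.pair q q' ∈ O →
      pair (nat q') t ∈ K := by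
    intro q q' t h hq
    obtain ⟨f, n, -, rfl⟩ := exists_seq (hsub q t h)
    rw [hKdef, mem_KD] at h ⊢
    obtain ⟨h1, m', α', h2, h3, h4⟩ := h
    exact ⟨h1, m', α', h2, h3, fun k hk => hmo _ _ _ _ hq (h4 k hk)⟩
  have hf : ∀ k, lab m α k ∈ Wl κ := fun k =>
    ZFSet.pair_mem_prod.2 ⟨nat_mem_omega _, Ordinal.toZFSet_mem_toZFSet_iff.2 (hκ k)⟩
  have hKf : ∀ k, ∃ l, pair (nat (G l)) (seq (lab m α) k) ∈ K := by
    intro k
    choose L hL using hmD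
    refine ⟨(Finset.range k).sup L, ?_⟩
    rw [hKdef, mem_KD]
    refine ⟨seq_mem_Sq fun i _ => hf i, m, α, fun _ _ => rfl, fun i _ j _ => hrun i j, ?_⟩
    intro i hi
    exact hmo _ _ _ _ (G_le hG.1 hrf htr (Finset.le_sup (Finset.mem_range.2 hi))) (hL i)
  have htM : ∀ k, seq (lab m α) k ∈ Lcls := fun k =>
    hM.trans _ hSq _ (seq_mem_Sq fun i _ => hf i)
  obtain ⟨k, l, hkl⟩ := claim2 hM hK hR hW hrf htr hup hG hf htM hKf
  refine ⟨l, ?_⟩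
  rintro G' hG' ⟨l', hl'⟩
  rw [← hl'] at hkl
  set Pi := Pd K (Os O) (Wl κ) (dl0 Lcls K (Os O) (Wl κ)) with hPi
  -- the sequence of extensions
  have step : ∀ t : ZFSet.{0}, (∃ l, pair (nat (G' l)) t ∈ Pi) → ∃ a ∈ Wl κ,
      ∃ l, pair (nat (G' l)) (pair t a) ∈ Pi := by
    rintro t ⟨l, hl⟩
    have h1 : t ∈ Lcls := hM.trans _ hSq _ (hsub _ _ (mem_Pd.1 hl).1)
    obtain ⟨l'', a, ha, h2⟩ := claim1 hM hK hR hW hrf htr hG' h1 hl
    exact ⟨a, ha, l'', h2⟩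
  choose! nx hnx1 hnx2 using step
  -- the sequence of the nodes
  let T : ℕ → ZFSet.{0} := fun i => Nat.rec (seq (lab m α) k) (fun _ t => pair t (nx t)) i
  have hT0 : T 0 = seq (lab m α) k := rfl
  have hTs : ∀ i, T (i + 1) = pair (T i) (nx (T i)) := fun i => rfl
  have hT : ∀ i, ∃ l, pair (nat (G' l)) (T i) ∈ Pi := by
    intro i
    induction i with
    | zero => exact ⟨l', hkl⟩
    | succ i ih =>
      rw [hTs]
      exact hnx2 _ ih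
  set f : ℕ → ZFSet.{0} := fun j => if j < k then lab m α j else nx (T (j - k)) with hfd
  have hfT : ∀ i, seq f (k + i) = T i := by
    intro i
    induction i with
    | zero =>
      rw [Nat.add_zero, hT0]
      refine seq_congr fun j hj => ?_
      rw [hfd]
      exact if_pos hj
    | succ i ih =>
      rw [hTs, ← Nat.add_assoc, seq, ih, hfd]
      beta_reduce
      rw [if_neg (by omega), Nat.add_sub_cancel_left]
  refine run_of (E := E) (Q := Q) (κ := κ) (f := f) (n₀ := k) ?_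
  intro n hn
  obtain ⟨l'', h1⟩ := hT (n - k)
  refine ⟨l'', ?_⟩
  rw [← hfT, Nat.add_sub_cancel' hn] at h1
  exact (mem_Pd.1 h1).1

end Pool.Agent.N607.SD
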